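import Mathlib
import Pool.Agent.CBinom.Rat
import Pool.Agent.CBinom.Two

/-!
Q2: the Dwork type supercongruence for the sums of the central binomial coefficients, all primes,
in the form valid for all lengths `N` and modulo `p^2 N^2 C(2N,N)`, with the exact law at `p = 2`.
-/

namespace Pool.Agent.Results.MP_8c97d4_nt.CentralBinomialAll

open Finset

theorem result :
    (∀ p : ℕ, p.Prime → p ≠ 2 → ∀ N : ℕ, 1 ≤ N → ∀ v : ℕ,
      p ^ v ∣ p ^ 2 * N ^ 2 * Nat.choose (2 * N) N →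
      (∑ k ∈ range (p * N), (Nat.choose (2 * k) k : ℤ))
        ≡ jacobiSym (-3) p * ∑ k ∈ range N, (Nat.choose (2 * k) k : ℤ) [ZMOD (p : ℤ) ^ v]) ∧
    (∀ N : ℕ, 1 ≤ N →
      padicValNat 2 (∑ k ∈ range (2 * N), Nat.choose (2 * k) k + ∑ k ∈ range N, Nat.choose (2 * k) k)
        = padicValNat 2 (N ^ 2 * Nat.choose (2 * N) N) + if Even N then 2 else 1) ∧
    (∀ p : ℕ, p.Prime → ∀ r : ℕ, 1 ≤ r →
      (∑ k ∈ range (p ^ r), (Nat.choose (2 * k) k : ℤ))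
        ≡ (if p = 2 then -1 else jacobiSym (-3) p) *
          ∑ k ∈ range (p ^ (r - 1)), (Nat.choose (2 * k) k : ℤ) [ZMOD (p : ℤ) ^ (2 * r)]) := by
  have hodd : ∀ p : ℕ, p.Prime → p ≠ 2 → ∀ N : ℕ, 1 ≤ N → ∀ v : ℕ,
      p ^ v ∣ p ^ 2 * N ^ 2 * Nat.choose (2 * N) N →
      (∑ k ∈ range (p * N), (Nat.choose (2 * k) k : ℤ))
        ≡ jacobiSym (-3) p * ∑ k ∈ range N, (Nat.choose (2 * k) k : ℤ) [ZMOD (p : ℤ) ^ v] := by
    intro p hp hp2 N hN v hv
    apply Int.ModEq.symm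
    rw [Int.modEq_iff_dvd]
    exact CBinom.odd_B hp hp2 _ (CBinom.jac3 hp hp2) N hN v hv
  refine ⟨hodd, fun N hN => CBinom.two_exact N hN, ?_⟩
  intro p hp r hr
  obtain ⟨r, rfl⟩ : ∃ s, r = s + 1 := ⟨r - 1, by omega⟩
  rw [Nat.add_sub_cancel]
  have hN : 1 ≤ p ^ r := Nat.one_le_iff_ne_zero.mpr (pow_ne_zero r hp.ne_zero)
  have e1 : p ^ (r + 1) = p * p ^ r := by rw [pow_succ, mul_comm]
  by_cases hp2 : p = 2
  · subst hp2
    rw [if_pos rfl, e1]
    apply Int.ModEq.symm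
    rw [Int.modEq_iff_dvd]
    have h := CBinom.two_dvd (2 ^ r) hN (2 * (r + 1)) (by
      rcases Nat.eq_zero_or_pos r with rfl | hr0
      · decide
      · have he : Even (2 ^ r) := (Nat.even_pow).mpr ⟨even_two, by omega⟩
        rw [if_pos he]
        apply Dvd.dvd.mul_right
        apply dvd_of_eq
        ring)
    have e2 : (∑ k ∈ range (2 * 2 ^ r), (Nat.choose (2 * k) k : ℤ))
        - -1 * ∑ k ∈ range (2 ^ r), (Nat.choose (2 * k) k : ℤ)
        = (∑ k ∈ range (2 * 2 ^ r), (Nat.choose (2 * k) k : ℤ))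
        + ∑ k ∈ range (2 ^ r), (Nat.choose (2 * k) k : ℤ) := by ring
    rw [e2]
    exact_mod_cast h
  · rw [if_neg hp2, e1]
    apply hodd p hp hp2 (p ^ r) hN
    apply Dvd.dvd.mul_right
    apply dvd_of_eq
    ring

end Pool.Agent.Results.MP_8c97d4_nt.CentralBinomialAll
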