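import Mathlib
import Pool.Agent.CBinom.Rat

/-!
Q1: the Dwork type supercongruence for the sums of `2^(-k) C(2k,k)`, odd primes, in the form
valid for all lengths `N` and modulo `p^2 N^2 C(2N,N)`.
-/

namespace Pool.Agent.Results.MP_8c97d4_nt.HalfWeightedAllLengths

open Finset

theorem result :
    (∀ p : ℕ, p.Prime → p ≠ 2 → ∀ N : ℕ, 1 ≤ N →
      ¬ p ∣ (((∑ k ∈ range (p * N), ((2 * k).choose k : ℚ) / 2 ^ k)
        - (jacobiSym (-1) p : ℚ) * ∑ k ∈ range N, ((2 * k).choose k : ℚ) / 2 ^ k)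
        / ((p : ℚ) ^ 2 * (N : ℚ) ^ 2 * ((2 * N).choose N : ℚ))).den) ∧
    (∀ p : ℕ, p.Prime → p ≠ 2 → ∀ r : ℕ, 1 ≤ r →
      ¬ p ∣ (((∑ k ∈ range (p ^ r), ((2 * k).choose k : ℚ) / 2 ^ k)
        - (jacobiSym (-1) p : ℚ) * ∑ k ∈ range (p ^ (r - 1)), ((2 * k).choose k : ℚ) / 2 ^ k)
        / (p : ℚ) ^ (2 * r)).den) := by
  refine ⟨fun p hp hp2 N hN => CBinom.rat_A hp hp2 N hN, ?_⟩
  intro p hp hp2 r hr
  obtain ⟨r, rfl⟩ : ∃ s, r = s + 1 := ⟨r - 1, by omega⟩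
  have hp0 : (p : ℚ) ≠ 0 := by exact_mod_cast hp.ne_zero
  have h := CBinom.rat_A hp hp2 (p ^ r) (Nat.one_le_iff_ne_zero.mpr (pow_ne_zero r hp.ne_zero))
  have e1 : p * p ^ r = p ^ (r + 1) := by rw [pow_succ, mul_comm]
  rw [e1] at h
  rw [Nat.add_sub_cancel]
  set c : ℚ := (∑ k ∈ range (p ^ (r + 1)), ((2 * k).choose k : ℚ) / 2 ^ k)
        - (jacobiSym (-1) p : ℚ) * ∑ k ∈ range (p ^ r), ((2 * k).choose k : ℚ) / 2 ^ k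
  have hC : (((2 * p ^ r).choose (p ^ r) : ℕ) : ℚ) ≠ 0 := by
    exact_mod_cast (Nat.choose_pos (by omega : p ^ r ≤ 2 * p ^ r)).ne'
  have e2 : c / (p : ℚ) ^ (2 * (r + 1))
      = (c / ((p : ℚ) ^ 2 * ((p ^ r : ℕ) : ℚ) ^ 2 * ((2 * p ^ r).choose (p ^ r) : ℚ)))
        * (((2 * p ^ r).choose (p ^ r) : ℕ) : ℚ) := by
    rw [div_mul_eq_mul_div, mul_comm ((p : ℚ) ^ 2 * ((p ^ r : ℕ) : ℚ) ^ 2), mul_comm c,
      mul_div_mul_left _ _ hC]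
    push_cast
    congr 1
    ring
  rw [e2]
  intro hd
  apply h
  have h2 := Rat.mul_den_dvd
    (c / ((p : ℚ) ^ 2 * ((p ^ r : ℕ) : ℚ) ^ 2 * ((2 * p ^ r).choose (p ^ r) : ℚ)))
    (((2 * p ^ r).choose (p ^ r) : ℕ) : ℚ)
  have h3 := hd.trans h2
  rw [Rat.den_natCast, mul_one] at h3
  exact h3

end Pool.Agent.Results.MP_8c97d4_nt.HalfWeightedAllLengths
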